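import Pool.Agent.Lib.MP_ae2185_co.Dist.Sub

/-!
Two explicit counterexamples, with `x` and `y` at distance four and five.
-/

set_option autoImplicit false
set_option synthInstance.maxSize 100000

namespace Pool.Agent.Lib.MP_ae2185_co.Dist

open SimpleGraph

/-- Adjacency read from the binary digits of `M`. -/
def bit (n M u v : ℕ) : Bool := u != v && (M.testBit (u * n + v) || M.testBit (v * n + u))

/-- The graph on `Fin n` with adjacency `bit n M`. -/
def bitG (n M : ℕ) : SimpleGraph (Fin n) where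
  Adj u v := bit n M u v = true
  symm := ⟨fun u v h => by
    simp only [bit, Bool.and_eq_true, bne_iff_ne, Bool.or_eq_true] at h ⊢
    exact ⟨h.1.symm, h.2.symm⟩⟩
  loopless := ⟨fun u h => by simp [bit] at h⟩

instance (n M : ℕ) : DecidableRel (bitG n M).Adj := fun u v =>
  inferInstanceAs (Decidable (bit n M u v = true))

theorem ind_sum {n M : ℕ} {t : Finset (Fin n)} (ht : Ind (bitG n M) t) :
    ∃ F : ℕ → ℕ, t.card = ∑ k ∈ Finset.range n, F k ∧ (∀ v : Fin n, v ∉ t → F v = 0) ∧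
      (∀ u v, bit n M u v = true → F u + F v ≤ 1) ∧
      ∀ u v w, bit n M u v = true → bit n M u w = true → bit n M v w = true →
        F u + F v + F w ≤ 1 := by
  have key : ∀ u v, bit n M u v = true → u ∈ t.map Fin.valEmbedding →
      v ∉ t.map Fin.valEmbedding := by
    intro u v h hu hv
    obtain ⟨p, hp, rfl⟩ := Finset.mem_map.1 hu
    obtain ⟨q, hq, rfl⟩ := Finset.mem_map.1 hv
    exact ht p hp q hq h
  refine ⟨fun k => if k ∈ t.map Fin.valEmbedding then 1 else 0, ?_, fun v hv => ?_,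
    fun u v h => ?_, fun u v w h1 h2 h3 => ?_⟩
  · rw [← Finset.card_filter, Finset.filter_mem_eq_inter, Finset.inter_eq_right.2, Finset.card_map]
    intro k hk
    obtain ⟨p, -, rfl⟩ := Finset.mem_map.1 hk
    exact Finset.mem_range.2 p.isLt
  · exact if_neg fun h => hv ((Finset.mem_map' Fin.valEmbedding).1 h)
  · have := key u v h
    dsimp only
    split_ifs <;> simp_all
  · have k1 := key u v h1
    have k2 := key u w h2
    have k3 := key v w h3
    dsimp only
    split_ifs <;> simp_all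

theorem crit_of_list {n M α : ℕ} (W : List (List (Fin n)))
    (h : ∀ u v, (bitG n M).Adj u v → ∃ l ∈ W, u ∈ l ∧ v ∈ l ∧ l.Nodup ∧ α < l.length ∧
      ∀ p ∈ l, ∀ q ∈ l, (bitG n M).Adj p q → (p = u ∧ q = v) ∨ (p = v ∧ q = u)) :
    Crit (bitG n M) α := by
  intro u v huv
  obtain ⟨l, -, -, -, hn, hl, ho⟩ := h u v huv
  refine ⟨l.toFinset, by rwa [List.toFinset_card_of_nodup hn], fun p hp q hq => ?_⟩
  exact ho p (List.mem_toFinset.1 hp) q (List.mem_toFinset.1 hq)

/-- A subdivision of `K_4` on the vertices 6 to 13; the vertices 2 to 5 extend a perfect matching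
to triangles; `0` is joined to 2, 3 and `1` to 4, 5. -/
def m14 : ℕ :=
  17360926901141246372889364368040247821446402207335821606924

/-- For each edge a large set that spans only this edge. -/
def w14 : List (List (Fin 14)) :=
  [[0, 1, 2, 6, 7, 13], [0, 1, 3, 8, 9, 11], [0, 1, 4, 6, 7, 8], [0, 1, 5, 7, 10, 13], [1, 2, 3,
   8, 9, 11], [1, 2, 3, 9, 10, 11], [1, 2, 3, 6, 7, 13], [1, 2, 3, 6, 12, 13], [0, 4, 5, 8, 9,
   12], [0, 4, 5, 7, 10, 13], [0, 4, 5, 6, 7, 8], [0, 4, 5, 7, 8, 11], [0, 1, 6, 8, 9, 12], [0, 1,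
   6, 7, 10, 13], [0, 1, 6, 7, 8, 11], [0, 1, 7, 8, 9, 11], [0, 1, 6, 7, 8, 12], [0, 1, 7, 8, 10,
   11], [0, 1, 6, 7, 8, 13], [0, 1, 9, 10, 12, 13], [0, 1, 8, 9, 11, 12], [0, 1, 7, 10, 11, 13]]

theorem ub14 (t : Finset (Fin 14)) (ht : Ind (bitG 14 m14) t) :
    t.card ≤ 5 ∧ (0 ∉ t → 1 ∉ t → t.card < 5) := by
  obtain ⟨F, hc, h0, h2, h3⟩ := ind_sum ht
  simp only [Finset.sum_range_succ, Finset.sum_range_zero] at hc
  have e0 := h2 0 2 (by decide +kernel)
  have e1 := h2 0 3 (by decide +kernel)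
  have e2 := h2 1 4 (by decide +kernel)
  have e3 := h2 1 5 (by decide +kernel)
  have e4 := h2 6 9 (by decide +kernel)
  have e5 := h2 6 10 (by decide +kernel)
  have e6 := h2 7 9 (by decide +kernel)
  have e7 := h2 8 13 (by decide +kernel)
  have e8 := h2 11 12 (by decide +kernel)
  have e9 := h2 11 13 (by decide +kernel)
  have t0 := h3 2 8 10 (by decide +kernel) (by decide +kernel) (by decide +kernel)
  have t1 := h3 3 7 12 (by decide +kernel) (by decide +kernel) (by decide +kernel)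
  have t2 := h3 4 9 13 (by decide +kernel) (by decide +kernel) (by decide +kernel)
  have t3 := h3 5 6 11 (by decide +kernel) (by decide +kernel) (by decide +kernel)
  refine ⟨?_, fun hx hy => ?_⟩
  · have : F 0 = 0 ∨ F 0 = 1 := by omega
    have : F 1 = 0 ∨ F 1 = 1 := by omega
    have : F 6 = 0 ∨ F 6 = 1 := by omega
    have : F 9 = 0 ∨ F 9 = 1 := by omega
    have : F 13 = 0 ∨ F 13 = 1 := by omega
    omega
  · have k0 : F 0 = 0 := h0 0 hx
    have k1 : F 1 = 0 := h0 1 hy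
    omega

/-- The counterexample on 14 vertices. -/
def p14 : Pack 4 4 where
  V := Fin 14
  fin := inferInstance
  G := bitG 14 m14
  α := 5
  x := 0
  y := 1
  a := 2
  b := 3
  c := 4
  d := 5
  g := fun v => [0, 0, 4, 4, 1, 1, 2, 3, 3, 2, 3, 2, 3, 2].getD v.val 0
  ub := fun t ht => (ub14 t ht).1
  cr := crit_of_list w14 (by decide +kernel)
  bad := fun t ht => (ub14 t ht).2
  nb := by decide +kernel
  ab := by decide +kernel
  yx := by decide +kernel
  cd := by decide +kernel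
  cx := by decide +kernel
  dx := by decide +kernel
  yc := by decide +kernel
  yd := by decide +kernel
  g0 := by decide +kernel
  lip := by decide +kernel
  desc := by decide +kernel
  ga := by decide +kernel
  gb := by decide +kernel

/-- A subdivision of `K_5` with branch vertices 2 to 6 on a 5-cycle, twins 7 of 2 and 8 of 4 along
the cycle, six triangles on 9 to 26, and the path 0, 27, 28, 7. -/
def m29 : ℕ :=
  3665783211180 * 10 ^ 240 +
  83963405883217798299753498605979055771222735387846240759603497234994022278118352 * 10 ^ 160 +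
  63351259871408343862481828770822780545382653287388401897440013642962785271277682 * 10 ^ 80 +
  17571181427403473150974584957624646979576354209861777074873053472771833291884544

/-- For each edge a large set that spans only this edge. -/
def w29 : List (List (Fin 29)) :=
  [[0, 1, 3, 5, 11, 12, 16, 18, 21, 24, 28], [0, 1, 4, 6, 9, 14, 15, 18, 21, 24, 28], [0, 1, 2, 4,
   9, 13, 15, 19, 23, 24, 28], [0, 1, 4, 7, 9, 13, 15, 18, 21, 24, 27], [0, 1, 2, 8, 9, 12, 15,
   19, 22, 25, 28], [0, 1, 3, 6, 10, 12, 17, 18, 21, 24, 28], [0, 1, 2, 5, 9, 12, 15, 20, 22, 25,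
   28], [0, 1, 2, 4, 9, 13, 15, 19, 22, 26, 28], [0, 1, 2, 3, 10, 12, 16, 19, 22, 25, 28], [0, 1,
   2, 6, 9, 12, 15, 19, 22, 25, 28], [1, 2, 4, 7, 9, 13, 15, 19, 23, 24, 27], [0, 1, 2, 5, 9, 12,
   15, 18, 22, 25, 28], [0, 1, 2, 4, 9, 13, 15, 19, 21, 24, 28], [0, 1, 3, 4, 10, 13, 16, 18, 21,
   24, 28], [1, 3, 5, 7, 11, 12, 16, 18, 21, 24, 27], [0, 3, 6, 8, 10, 12, 17, 18, 21, 24, 28],
   [0, 1, 3, 5, 9, 12, 16, 18, 21, 24, 28], [0, 1, 3, 6, 10, 12, 15, 18, 21, 24, 28], [0, 1, 4, 5,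
   7, 9, 13, 15, 18, 21, 24], [0, 2, 4, 8, 9, 13, 15, 19, 22, 26, 28], [0, 1, 4, 6, 9, 12, 15, 18,
   21, 24, 28], [0, 1, 2, 4, 9, 13, 15, 19, 22, 25, 28], [0, 1, 5, 6, 9, 12, 15, 18, 21, 24, 28],
   [0, 2, 5, 8, 9, 12, 15, 20, 22, 25, 28], [0, 1, 3, 5, 10, 12, 16, 18, 21, 24, 28], [0, 1, 2, 5,
   9, 12, 15, 19, 22, 25, 28], [1, 4, 6, 7, 9, 14, 15, 18, 21, 24, 27], [0, 1, 4, 6, 9, 13, 15,
   18, 21, 24, 28], [0, 1, 3, 6, 10, 12, 16, 18, 21, 24, 28], [0, 1, 4, 7, 9, 13, 15, 18, 21, 24,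
   28], [0, 1, 2, 4, 9, 10, 13, 15, 19, 22, 28], [1, 2, 4, 9, 11, 13, 15, 19, 23, 24, 27], [1, 2,
   4, 10, 11, 13, 15, 19, 23, 24, 27], [0, 1, 2, 5, 9, 12, 13, 15, 22, 25, 28], [1, 3, 5, 11, 12,
   14, 16, 18, 21, 24, 27], [1, 2, 4, 9, 13, 14, 15, 19, 23, 24, 27], [0, 1, 2, 4, 9, 13, 15, 16,
   19, 22, 28], [0, 2, 4, 9, 13, 15, 17, 19, 22, 26, 28], [0, 2, 4, 9, 13, 16, 17, 19, 22, 26,
   28], [0, 1, 3, 6, 10, 12, 18, 19, 21, 24, 28], [0, 3, 6, 10, 12, 17, 18, 20, 21, 24, 28], [0,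
   2, 4, 9, 13, 15, 19, 20, 22, 26, 28], [0, 1, 3, 5, 12, 16, 18, 21, 22, 25, 28], [1, 3, 5, 11,
   12, 16, 18, 21, 23, 24, 27], [1, 3, 5, 11, 12, 16, 18, 22, 23, 25, 27], [0, 1, 2, 4, 9, 13, 15,
   19, 22, 24, 28], [0, 1, 3, 5, 12, 16, 18, 21, 24, 25, 28], [0, 3, 6, 10, 12, 17, 18, 21, 24,
   26, 28], [0, 2, 5, 9, 12, 15, 20, 22, 25, 26, 28], [1, 2, 4, 9, 13, 15, 19, 23, 24, 27, 28]]

theorem ub29 (t : Finset (Fin 29)) (ht : Ind (bitG 29 m29) t) :
    t.card ≤ 10 ∧ (28 ∉ t → 1 ∉ t → t.card < 10) := by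
  obtain ⟨F, hc, h0, h2, h3⟩ := ind_sum ht
  simp only [Finset.sum_range_succ, Finset.sum_range_zero] at hc
  have e0 := h2 0 11 (by decide +kernel)
  have e1 := h2 0 14 (by decide +kernel)
  have e2 := h2 0 23 (by decide +kernel)
  have e3 := h2 0 27 (by decide +kernel)
  have e4 := h2 1 8 (by decide +kernel)
  have e5 := h2 1 17 (by decide +kernel)
  have e6 := h2 1 20 (by decide +kernel)
  have e7 := h2 1 26 (by decide +kernel)
  have e8 := h2 2 18 (by decide +kernel)
  have e9 := h2 2 21 (by decide +kernel)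
  have e10 := h2 3 9 (by decide +kernel)
  have e11 := h2 3 15 (by decide +kernel)
  have e12 := h2 4 12 (by decide +kernel)
  have e13 := h2 4 25 (by decide +kernel)
  have e14 := h2 5 6 (by decide +kernel)
  have e15 := h2 5 10 (by decide +kernel)
  have e16 := h2 5 19 (by decide +kernel)
  have e17 := h2 6 13 (by decide +kernel)
  have e18 := h2 6 16 (by decide +kernel)
  have e19 := h2 7 28 (by decide +kernel)
  have e20 := h2 22 24 (by decide +kernel)
  have e21 := h2 27 28 (by decide +kernel)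
  have t0 := h3 2 3 7 (by decide +kernel) (by decide +kernel) (by decide +kernel)
  have t1 := h3 2 6 7 (by decide +kernel) (by decide +kernel) (by decide +kernel)
  have t2 := h3 3 4 8 (by decide +kernel) (by decide +kernel) (by decide +kernel)
  have t3 := h3 4 5 8 (by decide +kernel) (by decide +kernel) (by decide +kernel)
  have t4 := h3 9 10 11 (by decide +kernel) (by decide +kernel) (by decide +kernel)
  have t5 := h3 12 13 14 (by decide +kernel) (by decide +kernel) (by decide +kernel)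
  have t6 := h3 15 16 17 (by decide +kernel) (by decide +kernel) (by decide +kernel)
  have t7 := h3 18 19 20 (by decide +kernel) (by decide +kernel) (by decide +kernel)
  have t8 := h3 21 22 23 (by decide +kernel) (by decide +kernel) (by decide +kernel)
  have t9 := h3 24 25 26 (by decide +kernel) (by decide +kernel) (by decide +kernel)
  have hP : F 2 + F 3 + F 4 + F 5 + F 6 + F 7 + F 8 ≤ 2 := by linarith only [t0, t1, t2, t3, e14]
  refine ⟨?_, fun hx hy => ?_⟩
  · by_cases h01 : F 0 + F 1 + F 27 + F 28 ≤ 2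
    · linarith only [hc, hP, h01, t4, t5, t6, t7, t8, t9]
    · obtain ⟨k0, k1, k2⟩ : F 0 = 1 ∧ F 1 = 1 ∧ F 28 = 1 := by
        clear * - h01 e3 e4 e21
        omega
      have hd : F 2 + F 3 + F 4 + F 5 + F 6 ≤ 1 ∨ (F 2 = 1 ∧ F 4 = 1) ∨ (F 2 = 1 ∧ F 5 = 1) ∨
          (F 3 = 1 ∧ F 5 = 1) ∨ (F 3 = 1 ∧ F 6 = 1) ∨ (F 4 = 1 ∧ F 6 = 1) := by
        clear * - t0 t1 t2 t3 e14
        omega
      rcases hd with h | ⟨h, h'⟩ | ⟨h, h'⟩ | ⟨h, h'⟩ | ⟨h, h'⟩ | ⟨h, h'⟩ <;> linarith
  · have k0 : F 28 = 0 := h0 28 hx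
    have k1 : F 1 = 0 := h0 1 hy
    linarith only [hc, hP, k0, k1, e3, t4, t5, t6, t7, t8, t9]

/-- The counterexample on 29 vertices. -/
def p29 : Pack 3 6 where
  V := Fin 29
  fin := inferInstance
  G := bitG 29 m29
  α := 10
  x := 28
  y := 1
  a := 7
  b := 27
  c := 8
  d := 17
  g := fun v => [5, 0, 3, 2, 2, 2, 3, 3, 1, 3, 3, 4, 3, 4, 4, 2, 2, 1, 2, 2, 1, 4, 3, 4, 2, 2, 1,
   6, 0].getD v.val 0
  ub := fun t ht => (ub29 t ht).1
  cr := crit_of_list w29 (by decide +kernel)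
  bad := fun t ht => (ub29 t ht).2
  nb := by decide +kernel
  ab := by decide +kernel
  yx := by decide +kernel
  cd := by decide +kernel
  cx := by decide +kernel
  dx := by decide +kernel
  yc := by decide +kernel
  yd := by decide +kernel
  g0 := by decide +kernel
  lip := by decide +kernel
  desc := by decide +kernel
  ga := by decide +kernel
  gb := by decide +kernel

end Pool.Agent.Lib.MP_ae2185_co.Dist
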