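import Mathlib

/-!
Critical sets of edges, and Wade's conclusion for two vertices at distance at most three.
-/

set_option autoImplicit false

namespace Pool.Agent.Lib.MP_ae2185_co.Dist

open SimpleGraph

variable {V : Type} {G : SimpleGraph V} {α : ℕ}

/-- No two elements of `s` are adjacent. -/
def Ind (G : SimpleGraph V) (s : Finset V) : Prop := ∀ p ∈ s, ∀ q ∈ s, ¬ G.Adj p q

/-- The only edge that `s` can span is `u v`. -/
def Only (G : SimpleGraph V) (u v : V) (s : Finset V) : Prop :=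
  ∀ p ∈ s, ∀ q ∈ s, G.Adj p q → (p = u ∧ q = v) ∨ (p = v ∧ q = u)

/-- Every edge is the only edge inside some set with more than `α` vertices. -/
def Crit (G : SimpleGraph V) (α : ℕ) : Prop :=
  ∀ u v, G.Adj u v → ∃ s : Finset V, α < s.card ∧ Only G u v s

theorem ind_iff {s : Finset V} : Ind G s ↔ G.IsIndepSet (s : Set V) :=
  ⟨fun h p hp q hq _ => h p hp q hq, fun h _ hp _ hq hpq => h hp hq hpq.ne hpq⟩

theorem Only.symm {u v : V} {s : Finset V} (h : Only G u v s) : Only G v u s :=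
  fun p hp q hq hpq => (h p hp q hq hpq).symm

theorem Crit.of_indepNum [Finite V]
    (h : ∀ e ∈ G.edgeSet, G.indepNum < (G.deleteEdges {e}).indepNum) : Crit G G.indepNum := by
  intro u v huv
  obtain ⟨s, hs⟩ := (G.deleteEdges {s(u, v)}).exists_isNIndepSet_indepNum
  refine ⟨s, hs.card_eq ▸ h s(u, v) huv, fun p hp q hq hpq => ?_⟩
  by_contra hne
  refine ind_iff.2 hs.isIndepSet p hp q hq (deleteEdges_adj.2 ⟨hpq, fun he => hne ?_⟩)
  rwa [Set.mem_singleton_iff, Sym2.eq_iff] at he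

theorem Crit.indepNum_lt [Finite V] (h : Crit G G.indepNum) :
    ∀ e ∈ G.edgeSet, G.indepNum < (G.deleteEdges {e}).indepNum := by
  intro e he
  induction e using Sym2.ind with
  | h u v =>
    obtain ⟨s, hs, ho⟩ := h u v he
    refine hs.trans_le (IsIndepSet.card_le_indepNum (ind_iff.1 fun p hp q hq hpq => ?_))
    rw [deleteEdges_adj, Set.mem_singleton_iff, Sym2.eq_iff] at hpq
    exact hpq.2 (ho p hp q hq hpq.1)

theorem Only.left_mem {u v : V} {s : Finset V} (hu : ∀ t, Ind G t → t.card ≤ α)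
    (hs : α < s.card) (h : Only G u v s) : u ∈ s := by
  by_contra hn
  refine absurd (hu s fun p hp q hq hpq => ?_) (not_le.2 hs)
  rcases h p hp q hq hpq with ⟨rfl, -⟩ | ⟨-, rfl⟩
  · exact hn hp
  · exact hn hq

/-- For an edge `u v` there is a large independent set that misses every neighbour of `u` or `v`
other than `v`. -/
theorem avoid (hu : ∀ t, Ind G t → t.card ≤ α) (hc : Crit G α) {u v : V} (huv : G.Adj u v) :
    ∃ s : Finset V, Ind G s ∧ α ≤ s.card ∧ ∀ w, w ≠ v → G.Adj u w ∨ G.Adj v w → w ∉ s := by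
  classical
  obtain ⟨s, hs, ho⟩ := hc u v huv
  have h1 := ho.left_mem hu hs
  have h2 := ho.symm.left_mem hu hs
  refine ⟨s.erase u, fun p hp q hq hpq => ?_, ?_, fun w hw h hws => ?_⟩
  · rcases ho p (Finset.mem_of_mem_erase hp) q (Finset.mem_of_mem_erase hq) hpq with h | h
    · exact Finset.ne_of_mem_erase hp h.1
    · exact Finset.ne_of_mem_erase hq h.2
  · rw [Finset.card_erase_of_mem h1]
    omega
  · have hw' := Finset.mem_of_mem_erase hws
    rcases h with h | h
    · rcases ho u h1 w hw' h with h' | h'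
      · exact hw h'.2
      · exact huv.ne h'.1
    · rcases ho v h2 w hw' h with h' | h'
      · exact hw h'.2
      · exact Finset.ne_of_mem_erase hws h'.2

theorem near (hu : ∀ t, Ind G t → t.card ≤ α) (hc : Crit G α) {x y : V}
    (hx : ∀ w, ∃ z, G.Adj x z ∧ z ≠ w) (p : G.Walk x y) (hp : p.length ≤ 3) :
    ∃ s : Finset V, Ind G s ∧ α ≤ s.card ∧ x ∉ s ∧ y ∉ s := by
  have h1 : x = y ∨ G.Adj x y → ∃ s : Finset V, Ind G s ∧ α ≤ s.card ∧ x ∉ s ∧ y ∉ s := by
    intro h
    obtain ⟨z, hz, hzy⟩ := hx y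
    obtain ⟨s, hs, hα, ha⟩ := avoid hu hc hz
    have hxs := ha x hz.ne (Or.inr hz.symm)
    exact ⟨s, hs, hα, hxs, h.elim (fun e => e ▸ hxs) fun h => ha y hzy.symm (Or.inl h)⟩
  match p, hp with
  | .nil, _ => exact h1 (Or.inl rfl)
  | .cons h .nil, _ => exact h1 (Or.inr h)
  | .cons h (.cons h' .nil), _ =>
    obtain ⟨s, hs, hα, ha⟩ := avoid hu hc h
    exact ⟨s, hs, hα, ha x h.ne (Or.inr h.symm), ha y h'.ne' (Or.inr h')⟩
  | .cons (v := a) h (.cons (v := c) h' (.cons h'' .nil)), _ =>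
    by_cases hxc : x = c
    · exact h1 (Or.inr (hxc ▸ h''))
    · obtain ⟨s, hs, hα, ha⟩ := avoid hu hc h'
      exact ⟨s, hs, hα, ha x hxc (Or.inl h.symm), ha y h''.ne' (Or.inr h'')⟩
  | .cons _ (.cons _ (.cons _ (.cons _ q))), hp =>
    simp only [Walk.length_cons] at hp
    omega

end Pool.Agent.Lib.MP_ae2185_co.Dist
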