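import Pool.Agent.Lib.MP_ae2185_co.Dist.Near

/-!
Counterexamples with a vertex `x` of degree two, and the replacement of an edge at `x` by a path
of length three.
-/

set_option autoImplicit false

namespace Pool.Agent.Lib.MP_ae2185_co.Dist

open SimpleGraph Sum

/-- A counterexample `G, x, y` in which `x` has the two neighbours `a`, `b`; `g` is the distance
to `y` in `G - x`, with `g a = i` and `g b = j`. -/
structure Pack (i j : ℕ) where
  V : Type
  fin : Finite V
  G : SimpleGraph V
  α : ℕ
  x : V
  y : V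
  a : V
  b : V
  c : V
  d : V
  g : V → ℕ
  ub : ∀ t, Ind G t → t.card ≤ α
  cr : Crit G α
  bad : ∀ t, Ind G t → x ∉ t → y ∉ t → t.card < α
  nb : ∀ w, G.Adj x w ↔ w = a ∨ w = b
  ab : a ≠ b
  yx : y ≠ x
  cd : c ≠ d
  cx : c ≠ x
  dx : d ≠ x
  yc : G.Adj y c
  yd : G.Adj y d
  g0 : g y = 0
  lip : ∀ u v, G.Adj u v → u ≠ x → v ≠ x → g u ≤ g v + 1
  desc : ∀ u, u ≠ x → u ≠ y → ∃ v, G.Adj u v ∧ v ≠ x ∧ g u = g v + 1
  ga : g a = i
  gb : g b = j

/-- Exchange of the two neighbours of `x`. -/
def Pack.swap {i j : ℕ} (P : Pack i j) : Pack j i :=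
  { P with
    a := P.b
    b := P.a
    nb := fun w => (P.nb w).trans or_comm
    ab := P.ab.symm
    ga := P.gb
    gb := P.ga }

section Sub

variable {V : Type} (G : SimpleGraph V) (x a : V)

/-- Adjacency after replacing the edge `x a` by the path `x, inr false, inr true, a`. -/
def subAdj : V ⊕ Bool → V ⊕ Bool → Prop
  | inl u, inl v => G.Adj u v ∧ ¬ (u = x ∧ v = a) ∧ ¬ (u = a ∧ v = x)
  | inl u, inr c => u = cond c a x
  | inr c, inl u => u = cond c a x
  | inr c, inr e => c ≠ e

/-- The graph obtained by replacing the edge `x a` by a path of length three. -/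
def sub : SimpleGraph (V ⊕ Bool) where
  Adj := subAdj G x a
  symm := ⟨by
    rintro (u | c) (v | e) h
    · exact ⟨h.1.symm, fun k => h.2.2 k.symm, fun k => h.2.1 k.symm⟩
    · exact h
    · exact h
    · exact Ne.symm h⟩
  loopless := ⟨by
    rintro (u | c) h
    · exact h.1.ne rfl
    · exact h rfl⟩

variable {G x a} {α : ℕ}

theorem sub_down {t : Finset (V ⊕ Bool)} (ht : Ind (sub G x a) t) :
    ∃ s : Finset V, Ind G s ∧ t.card ≤ s.card + 1 ∧ ∀ v ∈ s, inl v ∈ t := by
  classical
  have hc := Finset.card_toLeft_add_card_toRight (u := t)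
  by_cases h : inl x ∈ t ∧ inl a ∈ t
  · have h0 : t.toRight = ∅ := by
      refine Finset.eq_empty_of_forall_notMem fun c hc => ?_
      rw [Finset.mem_toRight] at hc
      cases c
      · exact ht _ h.1 _ hc rfl
      · exact ht _ h.2 _ hc rfl
    refine ⟨t.toLeft.erase x, fun p hp q hq hpq => ?_, ?_, fun v hv => ?_⟩
    · exact ht _ (Finset.mem_toLeft.1 (Finset.mem_of_mem_erase hp)) _
        (Finset.mem_toLeft.1 (Finset.mem_of_mem_erase hq))
        ⟨hpq, fun k => Finset.ne_of_mem_erase hp k.1, fun k => Finset.ne_of_mem_erase hq k.2⟩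
    · rw [Finset.card_erase_of_mem (Finset.mem_toLeft.2 h.1)]
      rw [h0, Finset.card_empty] at hc
      omega
    · exact Finset.mem_toLeft.1 (Finset.mem_of_mem_erase hv)
  · have h1 : t.toRight.card ≤ 1 := Finset.card_le_one.2 fun c hc e he => by
      by_contra hne
      exact ht _ (Finset.mem_toRight.1 hc) _ (Finset.mem_toRight.1 he) hne
    refine ⟨t.toLeft, fun p hp q hq hpq => ?_, by omega, fun v hv => Finset.mem_toLeft.1 hv⟩
    rw [Finset.mem_toLeft] at hp hq
    exact ht _ hp _ hq ⟨hpq, fun k => h ⟨k.1 ▸ hp, k.2 ▸ hq⟩, fun k => h ⟨k.2 ▸ hq, k.1 ▸ hp⟩⟩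

theorem sub_crit (hu : ∀ t, Ind G t → t.card ≤ α) (hc : Crit G α) (hxa : G.Adj x a) {b : V}
    (hxb : G.Adj x b) (hab : a ≠ b) : Crit (sub G x a) (α + 1) := by
  have hend : ∀ c : Bool, ∃ s : Finset (V ⊕ Bool), α + 1 < s.card ∧
      Only (sub G x a) (inl (cond c a x)) (inr c) s := by
    intro c
    obtain ⟨s, hs, ho⟩ := hc x a hxa
    refine ⟨s.disjSum {c}, by rw [Finset.card_disjSum, Finset.card_singleton]; omega, ?_⟩
    rintro (p | p) hp (q | q) hq hpq <;>
      simp only [Finset.inl_mem_disjSum, Finset.inr_mem_disjSum, Finset.mem_singleton] at hp hq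
    · exact ((ho p hp q hq hpq.1).elim hpq.2.1 hpq.2.2).elim
    · subst hq
      exact Or.inl ⟨congrArg inl hpq, rfl⟩
    · subst hp
      exact Or.inr ⟨rfl, congrArg inl hpq⟩
    · exact (hpq (hp.trans hq.symm)).elim
  rintro (u | c) (v | e) huv
  · obtain ⟨s, hs, ho⟩ := hc u v huv.1
    obtain ⟨c, hcs⟩ : ∃ c : Bool, cond c a x ∉ s := by
      by_contra hn
      have hx : x ∈ s := by_contra fun k => hn ⟨false, k⟩
      have ha : a ∈ s := by_contra fun k => hn ⟨true, k⟩
      rcases ho x hx a ha hxa with k | k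
      · exact huv.2.1 ⟨k.1.symm, k.2.symm⟩
      · exact huv.2.2 ⟨k.2.symm, k.1.symm⟩
    refine ⟨s.disjSum {c}, by rw [Finset.card_disjSum, Finset.card_singleton]; omega, ?_⟩
    rintro (p | p) hp (q | q) hq hpq <;>
      simp only [Finset.inl_mem_disjSum, Finset.inr_mem_disjSum, Finset.mem_singleton] at hp hq
    · exact (ho p hp q hq hpq.1).imp (fun k => ⟨congrArg inl k.1, congrArg inl k.2⟩)
        fun k => ⟨congrArg inl k.1, congrArg inl k.2⟩
    · subst hq
      exact (hcs ((show p = cond q a x from hpq) ▸ hp)).elim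
    · subst hp
      exact (hcs ((show q = cond p a x from hpq) ▸ hq)).elim
    · exact (hpq (hp.trans hq.symm)).elim
  · obtain rfl : u = cond e a x := huv
    exact hend e
  · obtain rfl : v = cond c a x := huv
    exact (hend c).imp fun s hs => ⟨hs.1, hs.2.symm⟩
  · obtain ⟨s, hs, hα, ha⟩ := avoid hu hc hxb
    have hn : ∀ k : Bool, cond k a x ∉ s := by
      intro k
      cases k
      · exact ha x hxb.ne (Or.inr hxb.symm)
      · exact ha a hab (Or.inl hxa)
    refine ⟨s.disjSum Finset.univ, ?_, ?_⟩
    · rw [Finset.card_disjSum, Finset.card_univ, Fintype.card_bool]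
      omega
    rintro (p | p) hp (q | q) hq hpq <;>
      simp only [Finset.inl_mem_disjSum, Finset.inr_mem_disjSum] at hp hq
    · exact (hs p hp q hq hpq.1).elim
    · exact (hn q ((show p = cond q a x from hpq) ▸ hp)).elim
    · exact (hn p ((show q = cond p a x from hpq) ▸ hq)).elim
    · have h1 : c ≠ e := huv
      have h2 : p ≠ q := hpq
      revert h1 h2
      cases c <;> cases e <;> cases p <;> cases q <;> simp

end Sub

/-- Replacing the edge `x a` by a path of length three. -/
def Pack.step {i j : ℕ} (P : Pack i j) : Pack (i + 2) j :=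
  have hxa : P.G.Adj P.x P.a := (P.nb _).2 (Or.inl rfl)
  have hxb : P.G.Adj P.x P.b := (P.nb _).2 (Or.inr rfl)
  { V := P.V ⊕ Bool
    fin := by
      have := P.fin
      infer_instance
    G := sub P.G P.x P.a
    α := P.α + 1
    x := inl P.x
    y := inl P.y
    a := inr false
    b := inl P.b
    c := inl P.c
    d := inl P.d
    g := Sum.elim P.g fun c => cond c (i + 1) (i + 2)
    ub := fun t ht => by
      obtain ⟨s, hs, hc, -⟩ := sub_down ht
      have := P.ub s hs
      omega
    cr := sub_crit P.ub P.cr hxa hxb P.ab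
    bad := fun t ht hx hy => by
      obtain ⟨s, hs, hc, hm⟩ := sub_down ht
      have := P.bad s hs (fun k => hx (hm _ k)) fun k => hy (hm _ k)
      omega
    nb := by
      rintro (w | c)
      · refine ⟨fun h => Or.inr (congrArg inl (((P.nb w).1 h.1).resolve_left
          fun k => h.2.1 ⟨rfl, k⟩)), fun h => ?_⟩
        obtain rfl : w = P.b := inl_injective (h.resolve_left inl_ne_inr)
        exact ⟨hxb, fun k => P.ab k.2.symm, fun k => hxa.ne k.1⟩
      · cases c
        · exact ⟨fun _ => Or.inl rfl, fun _ => rfl⟩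
        · exact ⟨fun h => (hxa.ne h).elim, fun h => by simp at h⟩
    ab := inr_ne_inl
    yx := fun h => P.yx (inl_injective h)
    cd := fun h => P.cd (inl_injective h)
    cx := fun h => P.cx (inl_injective h)
    dx := fun h => P.dx (inl_injective h)
    yc := ⟨P.yc, fun k => P.yx k.1, fun k => P.cx k.2⟩
    yd := ⟨P.yd, fun k => P.yx k.1, fun k => P.dx k.2⟩
    g0 := P.g0
    lip := by
      have ga := P.ga
      rintro (u | c) (v | e) h hu hv
      · exact P.lip u v h.1 (fun k => hu (congrArg inl k)) fun k => hv (congrArg inl k)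
      · obtain rfl : u = cond e P.a P.x := h
        cases e
        · exact (hu rfl).elim
        · show P.g P.a ≤ i + 1 + 1
          omega
      · obtain rfl : v = cond c P.a P.x := h
        cases c
        · exact (hv rfl).elim
        · show i + 1 ≤ P.g P.a + 1
          omega
      · cases c <;> cases e <;> simp
    desc := by
      rintro (u | c) hx hy
      · have hux : u ≠ P.x := fun k => hx (congrArg inl k)
        obtain ⟨v, h, hv, hg⟩ := P.desc u hux fun k => hy (congrArg inl k)
        exact ⟨inl v, ⟨h, fun k => hux k.1, fun k => hv k.2⟩, fun k => hv (inl_injective k), hg⟩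
      · cases c
        · exact ⟨inr true, Bool.false_ne_true, inr_ne_inl, rfl⟩
        · exact ⟨inl P.a, rfl, fun k => hxa.ne' (inl_injective k), congrArg (· + 1) P.ga.symm⟩
    ga := rfl
    gb := P.gb }

theorem Pack.iter {i j : ℕ} (P : Pack i j) (k : ℕ) : Nonempty (Pack (i + 2 * k) (j + 2 * k)) := by
  induction k with
  | zero => exact ⟨P⟩
  | succ k ih => exact ih.map fun Q => Q.step.swap.step.swap

theorem Pack.edist {i j : ℕ} (P : Pack i j) (hij : i ≤ j) :
    P.G.edist P.x P.y = (i + 1 : ℕ) := by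
  classical
  have hxa : P.G.Adj P.x P.a := (P.nb _).2 (Or.inl rfl)
  have up : ∀ n u, u ≠ P.x → P.g u = n → ∃ p : P.G.Walk u P.y, p.length ≤ n := by
    intro n
    induction n with
    | zero =>
      intro u hu hg
      by_cases hy : u = P.y
      · subst hy
        exact ⟨.nil, le_rfl⟩
      · obtain ⟨v, -, -, h⟩ := P.desc u hu hy
        omega
    | succ n ih =>
      intro u hu hg
      by_cases hy : u = P.y
      · subst hy
        exact ⟨.nil, Nat.zero_le _⟩
      · obtain ⟨v, h, hv, hgv⟩ := P.desc u hu hy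
        obtain ⟨p, hp⟩ := ih v hv (by omega)
        exact ⟨.cons h p, Nat.succ_le_succ hp⟩
  let f : P.V → ℕ := fun u => if u = P.x then i + 1 else min (P.g u) (i + 2)
  have lipf : ∀ u v, P.G.Adj u v → f u ≤ f v + 1 := by
    intro u v h
    have ga := P.ga
    have gb := P.gb
    by_cases hu : u = P.x
    · subst hu
      simp only [f, if_pos, if_neg h.ne']
      rcases (P.nb v).1 h with rfl | rfl <;> omega
    · by_cases hv : v = P.x
      · simp only [f, if_pos hv, if_neg hu]
        omega
      · have := P.lip u v h hu hv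
        simp only [f, if_neg hu, if_neg hv]
        omega
  have lo : ∀ u v (p : P.G.Walk u v), f u ≤ f v + p.length := by
    intro u v p
    induction p with
    | nil => exact Nat.le_add_right _ _
    | cons h p ih =>
      have := lipf _ _ h
      rw [Walk.length_cons]
      omega
  apply le_antisymm
  · obtain ⟨p, hp⟩ := up i P.a hxa.ne' P.ga
    refine (edist_le (.cons hxa p)).trans ?_
    exact_mod_cast Nat.succ_le_succ hp
  · refine le_iInf fun p => ?_
    have h := lo _ _ p
    have g0 := P.g0
    simp only [f, if_pos, if_neg P.yx] at h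
    exact_mod_cast (by omega : i + 1 ≤ p.length)

end Pool.Agent.Lib.MP_ae2185_co.Dist
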